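import Pool.Agent.H74.OLP.Targets2

set_option autoImplicit false
set_option linter.unusedSectionVars false
open scoped Classical
open Finset

namespace Pool.Agent.H57.OLP

open Pool.Agent.H74.OLP

theorem pair_of {V E F : Type} (M : CMap V E F) (hM : M.OK) (e : E) (y z : F)
    (h : ∀ f, M.OnF e f ↔ (f = y ∨ f = z)) :
    (M.l e = y ∧ M.r e = z) ∨ (M.l e = z ∧ M.r e = y) := by
  have h1 := (h (M.l e)).1 (Or.inl rfl)
  have h2 := (h (M.r e)).1 (Or.inr rfl)
  have h3 := hM.lr e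
  rcases h1 with h1 | h1 <;> rcases h2 with h2 | h2
  · exact absurd (h1.trans h2.symm) h3
  · exact Or.inl ⟨h1, h2⟩
  · exact Or.inr ⟨h1, h2⟩
  · exact absurd (h1.trans h2.symm) h3

theorem vals (Da Db Dc : R) (X Y Z : Prop) (h0 : Da + Db + Dc = 0) (ha : ¬ Y → ¬ Z → Da = 0)
    (hb : ¬ Z → ¬ X → Db = 0) (hc : ¬ X → ¬ Y → Dc = 0) :
    ∃ hx hy hz : R, hy + hz = Da ∧ hz + hx = Db ∧ hx + hy = Dc ∧ (¬ X → hx = 0) ∧
      (¬ Y → hy = 0) ∧ (¬ Z → hz = 0) := by
  have key : ∀ a b c : R, a + b + c = 0 → a + b = c ∧ b + c = a ∧ c + a = b ∧ b + a = c ∧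
      c + b = a ∧ a + c = b := by decide
  obtain ⟨k1, k2, k3, k4, k5, k6⟩ := key Da Db Dc h0
  by_cases hX : X
  · by_cases hY : Y
    · refine ⟨Db, Da, 0, by rw [add_zero], by rw [zero_add], k4, fun h => absurd hX h,
        fun h => absurd hY h, fun _ => rfl⟩
    · refine ⟨Dc, 0, Da, by rw [zero_add], k6, by rw [add_zero], fun h => absurd hX h,
        fun _ => rfl, fun h => ha hY h⟩
  · refine ⟨0, Dc, Db, k5, by rw [add_zero], by rw [zero_add], fun _ => rfl, fun h => hc hX h,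
      fun h => hb h hX⟩

theorem pf_DUA (h1 : T_ZGV) : T_DUA := by
  intro V E F _ _ _ M hM A D hD hA
  have claim : ∀ v : V, ∃ h : F → R, ∀ e, M.OnV e v →
      h (M.l e) + h (M.r e) = D e ∧ (M.l e ∉ A → h (M.l e) = 0) ∧
        (M.r e ∉ A → h (M.r e) = 0) := by
    intro v
    obtain ⟨a, b, c, x, y, z, hab, hbc, hac, hxy, hyz, hxz, hv, hfa, hfb, hfc⟩ := hM.tri v
    have h0 : D a + D b + D c = 0 := by
      rw [← h1 V E F M hM D v a b c hab hbc hac hv]
      exact hD v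
    have pa := pair_of M hM a y z hfa
    have pb := pair_of M hM b z x hfb
    have pc := pair_of M hM c x y hfc
    have za : y ∉ A → z ∉ A → D a = 0 := by
      intro k1 k2
      apply hA
      · rcases pa with ⟨p, _⟩ | ⟨p, _⟩ <;> rw [p] <;> assumption
      · rcases pa with ⟨_, p⟩ | ⟨_, p⟩ <;> rw [p] <;> assumption
    have zb : z ∉ A → x ∉ A → D b = 0 := by
      intro k1 k2
      apply hA
      · rcases pb with ⟨p, _⟩ | ⟨p, _⟩ <;> rw [p] <;> assumption
      · rcases pb with ⟨_, p⟩ | ⟨_, p⟩ <;> rw [p] <;> assumption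
    have zc : x ∉ A → y ∉ A → D c = 0 := by
      intro k1 k2
      apply hA
      · rcases pc with ⟨p, _⟩ | ⟨p, _⟩ <;> rw [p] <;> assumption
      · rcases pc with ⟨_, p⟩ | ⟨_, p⟩ <;> rw [p] <;> assumption
    obtain ⟨hx, hy, hz, e1, e2, e3, e4, e5, e6⟩ := vals (D a) (D b) (D c) (x ∈ A) (y ∈ A)
      (z ∈ A) h0 za zb zc
    refine ⟨fun f => if f = x then hx else if f = y then hy else if f = z then hz else 0, ?_⟩
    have vx : (fun f => if f = x then hx else if f = y then hy else if f = z then hz else 0) x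
        = hx := by simp
    have vy : (fun f => if f = x then hx else if f = y then hy else if f = z then hz else 0) y
        = hy := by simp [hxy.symm]
    have vz : (fun f => if f = x then hx else if f = y then hy else if f = z then hz else 0) z
        = hz := by simp [hxz.symm, hyz.symm]
    intro e he
    rcases (hv e).1 he with rfl | rfl | rfl
    · rcases pa with ⟨p, q⟩ | ⟨p, q⟩ <;> rw [p, q, vy, vz]
      · exact ⟨e1, e5, e6⟩
      · exact ⟨by rw [add_comm]; exact e1, e6, e5⟩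
    · rcases pb with ⟨p, q⟩ | ⟨p, q⟩ <;> rw [p, q, vx, vz]
      · exact ⟨e2, e6, e4⟩
      · exact ⟨by rw [add_comm]; exact e2, e4, e6⟩
    · rcases pc with ⟨p, q⟩ | ⟨p, q⟩ <;> rw [p, q, vx, vy]
      · exact ⟨e3, e4, e5⟩
      · exact ⟨by rw [add_comm]; exact e3, e5, e4⟩
  choose θ hθ using claim
  have key : ∀ a b c d D : R, a + b = D → c + d = D → b + d = a + c := by decide
  refine ⟨θ, fun e => θ (M.s e) (M.l e) + θ (M.t e) (M.l e), ?_, ?_⟩
  · intro e
    obtain ⟨s1, -, -⟩ := hθ (M.s e) e (Or.inl rfl)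
    obtain ⟨t1, -, -⟩ := hθ (M.t e) e (Or.inr rfl)
    exact ⟨rfl, key _ _ _ _ _ s1 t1, s1, t1⟩
  · intro e hx
    obtain ⟨s1, s2, s3⟩ := hθ (M.s e) e (Or.inl rfl)
    obtain ⟨t1, t2, t3⟩ := hθ (M.t e) e (Or.inr rfl)
    constructor
    · by_contra hl
      apply hx
      show θ (M.s e) (M.l e) + θ (M.t e) (M.l e) = 0
      rw [s2 hl, t2 hl, add_zero]
    · by_contra hr
      apply hx
      show θ (M.s e) (M.l e) + θ (M.t e) (M.l e) = 0
      rw [← key _ _ _ _ _ s1 t1, s3 hr, t3 hr, add_zero]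

end Pool.Agent.H57.OLP
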