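import Pool.Agent.H74.OLP.Targets

set_option autoImplicit false
open scoped Classical
open Finset

namespace Pool.Agent.H57.OLP

open Pool.Agent.H74.OLP

theorem dvd_small {d : ℕ} {k : ℤ} (h1 : -(d : ℤ) < k) (h2 : k < d) : (d : ℤ) ∣ k ↔ k = 0 := by
  constructor
  · intro h
    exact Int.eq_zero_of_abs_lt_dvd h (abs_lt.2 ⟨h1, h2⟩)
  · rintro rfl
    exact dvd_zero _

theorem pf_LNK : T_LNK := by
  intro F T f d nb hd heq hadj hall x y hfx hfy hxy hnxy
  obtain ⟨a, rfl⟩ := (hall x).1 hfx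
  obtain ⟨b0, rfl⟩ := (hall y).1 hfy
  have hd0 : (0 : ℤ) < d := by omega
  have eqs : ∀ i j : ℤ, -(d : ℤ) < i - j → i - j < d → (nb i = nb j ↔ i = j) := by
    intro i j h1 h2
    rw [heq, dvd_small h1 h2]
    omega
  have ads : ∀ i j : ℤ, -(d : ℤ) + 1 < i - j → i - j < d - 1 →
      (T.Adj (nb i) (nb j) ↔ (i = j + 1 ∨ j = i + 1)) := by
    intro i j h1 h2
    rw [hadj, dvd_small (by omega) (by omega), dvd_small (by omega) (by omega)]
    omega
  obtain ⟨δ, hδ⟩ : ∃ δ : ℤ, δ = (b0 - a) % d := ⟨_, rfl⟩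
  have hδ0 : 0 ≤ δ := by rw [hδ]; exact Int.emod_nonneg _ (by omega)
  have hδd : δ < d := by rw [hδ]; exact Int.emod_lt_of_pos _ hd0
  have hb : nb b0 = nb (a + δ) := by
    rw [heq]
    have := Int.emod_add_mul_ediv (b0 - a) d
    refine ⟨(b0 - a) / d, ?_⟩
    rw [hδ]
    linarith
  rw [hb] at hxy hnxy hfy ⊢
  have h1 : δ ≠ 0 := by
    rintro h
    apply hxy
    rw [h, add_zero]
  have h2 : δ ≠ 1 := by
    rintro h
    apply hnxy
    rw [hadj]
    right
    rw [h]
    simp
  have h3 : δ ≠ d - 1 := by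
    rintro h
    apply hnxy
    rw [hadj]
    left
    rw [h]
    refine ⟨-1, ?_⟩
    ring
  obtain ⟨p, hp⟩ : ∃ p : ℕ, (p : ℤ) = δ - 1 := ⟨(δ - 1).toNat, Int.toNat_of_nonneg (by omega)⟩
  obtain ⟨q, hq⟩ : ∃ q : ℕ, (q : ℤ) = d - δ - 1 :=
    ⟨(d - δ - 1).toNat, Int.toNat_of_nonneg (by omega)⟩
  have hy : nb (a + δ) = nb (a - (q + 1)) := by
    rw [heq]
    refine ⟨1, ?_⟩
    rw [hq]
    ring
  refine ⟨p, fun j => nb (a + j), q, fun j => nb (a - j), ?_⟩
  constructor
  · omega
  · omega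
  · omega
  · intro g
    rw [hall]
    constructor
    · rintro ⟨i, rfl⟩
      obtain ⟨ρ, hρ⟩ : ∃ ρ : ℤ, ρ = (i - a) % d := ⟨_, rfl⟩
      have hρ0 : 0 ≤ ρ := by rw [hρ]; exact Int.emod_nonneg _ (by omega)
      have hρd : ρ < d := by rw [hρ]; exact Int.emod_lt_of_pos _ hd0
      have hi : nb i = nb (a + ρ) := by
        rw [heq]
        have := Int.emod_add_mul_ediv (i - a) d
        refine ⟨(i - a) / d, ?_⟩
        rw [hρ]
        linarith
      rw [hi]
      by_cases c1 : ρ = 0
      · left; rw [c1, add_zero]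
      · by_cases c2 : ρ < δ
        · right; right; left
          refine ⟨ρ.toNat, by omega, by omega, ?_⟩
          rw [Int.toNat_of_nonneg hρ0]
        · by_cases c3 : ρ = δ
          · right; left; rw [c3]
          · right; right; right
            refine ⟨(d - ρ).toNat, by omega, by omega, ?_⟩
            rw [Int.toNat_of_nonneg (by omega), heq]
            refine ⟨1, ?_⟩
            ring
    · rintro (rfl | rfl | ⟨j, -, -, rfl⟩ | ⟨j, -, -, rfl⟩)
      · exact ⟨_, rfl⟩
      · exact ⟨_, rfl⟩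
      · exact ⟨_, rfl⟩
      · exact ⟨_, rfl⟩
  · intro i j _ _ _ _ h
    have := (eqs _ _ (by omega) (by omega)).1 h
    omega
  · intro i j _ _ _ _
    rw [ads _ _ (by omega) (by omega)]
    omega
  · intro j _ _
    rw [ads _ _ (by omega) (by omega)]
    omega
  · intro j _ _
    rw [ads _ _ (by omega) (by omega)]
    omega
  · intro j _ _ h
    have := (eqs _ _ (by omega) (by omega)).1 h
    omega
  · intro j _ _ h
    have := (eqs _ _ (by omega) (by omega)).1 h
    omega
  · intro i j _ _ _ _ h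
    have := (eqs _ _ (by omega) (by omega)).1 h
    omega
  · intro i j _ _ _ _
    rw [ads _ _ (by omega) (by omega)]
    omega
  · intro j _ _
    rw [ads _ _ (by omega) (by omega)]
    omega
  · intro j _ _
    rw [hy, ads _ _ (by omega) (by omega)]
    omega
  · intro j _ _ h
    have := (eqs _ _ (by omega) (by omega)).1 h
    omega
  · intro j _ _ h
    rw [hy] at h
    have := (eqs _ _ (by omega) (by omega)).1 h
    omega
  · intro i j _ _ _ _
    constructor
    · rw [ads _ _ (by omega) (by omega)]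
      omega
    · intro h
      have := (eqs _ _ (by omega) (by omega)).1 h
      omega

end Pool.Agent.H57.OLP
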