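import Pool.Agent.H74.OLP.Targets2

set_option autoImplicit false
set_option linter.unusedSectionVars false
open scoped Classical
open Finset

namespace Pool.Agent.H57.OLP

open Pool.Agent.H74.OLP

theorem sym_of {V E F : Type} (M : CMap V E F) (hM : M.OK) (e : E) (y z : F)
    (h : ∀ f, M.OnF e f ↔ (f = y ∨ f = z)) : s(M.l e, M.r e) = s(y, z) := by
  have h1 := (h (M.l e)).1 (Or.inl rfl)
  have h2 := (h (M.r e)).1 (Or.inr rfl)
  have h3 := hM.lr e
  rcases h1 with h1 | h1 <;> rcases h2 with h2 | h2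
  · exact absurd (h1.trans h2.symm) h3
  · rw [h1, h2]
  · rw [h1, h2, Sym2.eq_swap]
  · exact absurd (h1.trans h2.symm) h3

theorem adj3 {V E F : Type} (M : CMap V E F) (e1 e2 e3 : E) (p q w f n1 n2 : F)
    (hpq : p ≠ q) (hqw : q ≠ w) (hpw : p ≠ w) (S1 : s(M.l e1, M.r e1) = s(q, w))
    (S2 : s(M.l e2, M.r e2) = s(w, p)) (S3 : s(M.l e3, M.r e3) = s(p, q))
    (N1 : s(M.l e1, M.r e1) = s(f, n1)) (N2 : s(M.l e2, M.r e2) = s(f, n2)) :
    M.T.Adj n1 n2 := by
  rw [S1, Sym2.eq_iff] at N1
  rw [S2, Sym2.eq_iff] at N2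
  rcases N1 with ⟨a1, a2⟩ | ⟨a1, a2⟩ <;> rcases N2 with ⟨b1, b2⟩ | ⟨b1, b2⟩
  · exact absurd (a1.trans b1.symm) hqw
  · exact absurd (b2.trans a1.symm) hpq
  · refine ⟨?_, e3, ?_⟩
    · rw [← a1, ← b2]; exact hpq.symm
    · rw [← a1, ← b2, S3, Sym2.eq_swap]
  · exact absurd (b2.trans a2.symm) hpw

theorem pf_NBR : T_NBR := by
  intro V E F _ _ _ M hM hSF hC3 hd f
  have hon : ∀ i, M.OnF (M.ed f i) f := fun i => (hM.on _ _).2 ⟨i, rfl⟩
  obtain ⟨nb, hnb⟩ : ∃ nb : ℤ → F, ∀ i, nb i =
    if M.l (M.ed f i) = f then M.r (M.ed f i) else M.l (M.ed f i) := ⟨_, fun _ => rfl⟩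
  have hs : ∀ i, s(M.l (M.ed f i), M.r (M.ed f i)) = s(f, nb i) := by
    intro i
    rw [hnb]
    by_cases h : M.l (M.ed f i) = f
    · rw [if_pos h, h]
    · rw [if_neg h]
      rcases hon i with h' | h'
      · exact absurd h' h
      · rw [h', Sym2.eq_swap]
  have hne : ∀ i, f ≠ nb i := by
    intro i h
    have h1 := hs i
    rw [← h] at h1
    have h2 := hM.lr (M.ed f i)
    rw [Sym2.eq_iff] at h1
    rcases h1 with ⟨a, b⟩ | ⟨a, b⟩ <;> exact h2 (a.trans b.symm)
  have heq : ∀ i j, nb i = nb j ↔ (M.d f : ℤ) ∣ i - j := by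
    intro i j
    constructor
    · intro h
      rw [← hM.ed_eq]
      apply hSF
      rw [hs, hs, h]
    · intro h
      rw [← hM.ed_eq] at h
      rw [hnb, hnb, h]
  have hd5 : (5 : ℤ) ≤ M.d f := by exact_mod_cast hd f
  have hstep : ∀ i, M.T.Adj (nb i) (nb (i + 1)) := by
    intro i
    obtain ⟨a, b, c, x, y, z, hab, hbc, hac, hxy, hyz, hxz, hv, hfa, hfb, hfc⟩ :=
      hM.tri (M.vt f (i + 1))
    have v1 : M.OnV (M.ed f i) (M.vt f (i + 1)) := by
      rcases hM.jn f i with h | h
      · exact Or.inr h.2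
      · exact Or.inl h.2
    have v2 : M.OnV (M.ed f (i + 1)) (M.vt f (i + 1)) := by
      rcases hM.jn f (i + 1) with h | h
      · exact Or.inl h.1
      · exact Or.inr h.1
    have hdiff : M.ed f i ≠ M.ed f (i + 1) := by
      intro h
      rw [hM.ed_eq] at h
      have h1 : i - (i + 1) = -1 := by ring
      rw [h1] at h
      have h2 := Int.eq_zero_of_abs_lt_dvd h (by rw [abs_neg, abs_one]; omega)
      omega
    have N1 := hs i
    have N2 := hs (i + 1)
    have Sa := sym_of M hM a y z hfa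
    have Sb := sym_of M hM b z x hfb
    have Sc := sym_of M hM c x y hfc
    rcases (hv _).1 v1 with h1 | h1 | h1 <;> rcases (hv _).1 v2 with h2 | h2 | h2 <;>
      rw [h1] at N1 hdiff <;> rw [h2] at N2 hdiff
    · exact absurd rfl hdiff
    · exact adj3 M a b c x y z f _ _ hxy hyz hxz Sa Sb Sc N1 N2
    · exact (adj3 M c a b z x y f _ _ hxz.symm hxy hyz.symm Sc Sa Sb N2 N1).symm
    · exact (adj3 M a b c x y z f _ _ hxy hyz hxz Sa Sb Sc N2 N1).symm
    · exact absurd rfl hdiff
    · exact adj3 M b c a y z x f _ _ hyz hxz.symm hxy.symm Sb Sc Sa N1 N2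
    · exact adj3 M c a b z x y f _ _ hxz.symm hxy hyz.symm Sc Sa Sb N1 N2
    · exact (adj3 M b c a y z x f _ _ hyz hxz.symm hxy.symm Sb Sc Sa N2 N1).symm
    · exact absurd rfl hdiff
  refine ⟨nb, heq, ?_, ?_⟩
  · intro i j
    constructor
    · rintro ⟨hij, e2, he2⟩
      obtain ⟨v, w1, -, w3⟩ := hC3 (M.ed f i) e2 (M.ed f j) f (nb i) (nb j) (hne i) hij (hne j)
        (hs i) he2 ((hs j).trans Sym2.eq_swap)
      have p1 : v = M.vt f i ∨ v = M.vt f (i + 1) := by
        rcases hM.jn f i with h | h <;> rcases w1 with w | w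
        · exact Or.inl (w.symm.trans h.1)
        · exact Or.inr (w.symm.trans h.2)
        · exact Or.inr (w.symm.trans h.2)
        · exact Or.inl (w.symm.trans h.1)
      have p3 : v = M.vt f j ∨ v = M.vt f (j + 1) := by
        rcases hM.jn f j with h | h <;> rcases w3 with w | w
        · exact Or.inl (w.symm.trans h.1)
        · exact Or.inr (w.symm.trans h.2)
        · exact Or.inr (w.symm.trans h.2)
        · exact Or.inl (w.symm.trans h.1)
      have hn : ¬ (M.d f : ℤ) ∣ i - j := fun h => hij ((heq i j).2 h)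
      rcases p1 with p1 | p1 <;> rcases p3 with p3 | p3
      · exact absurd ((hM.vt_eq f i j).1 (p1.symm.trans p3)) hn
      · left
        have := (hM.vt_eq f i (j + 1)).1 (p1.symm.trans p3)
        have e : i - (j + 1) = i - j - 1 := by ring
        rwa [e] at this
      · right
        have := (hM.vt_eq f j (i + 1)).1 (p3.symm.trans p1)
        have e : j - (i + 1) = j - i - 1 := by ring
        rwa [e] at this
      · exfalso
        apply hn
        have := (hM.vt_eq f (i + 1) (j + 1)).1 (p1.symm.trans p3)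
        have e : i + 1 - (j + 1) = i - j := by ring
        rwa [e] at this
    · rintro (h | h)
      · have h1 : nb i = nb (j + 1) := by
          rw [heq]
          have e : i - (j + 1) = i - j - 1 := by ring
          rwa [e]
        rw [h1]
        exact (hstep j).symm
      · have h1 : nb j = nb (i + 1) := by
          rw [heq]
          have e : j - (i + 1) = j - i - 1 := by ring
          rwa [e]
        rw [h1]
        exact hstep i
  · intro g
    constructor
    · rintro ⟨hfg, e, he⟩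
      have h1 : M.OnF e f := by
        rw [Sym2.eq_iff] at he
        rcases he with h | h
        · exact Or.inl h.1
        · exact Or.inr h.2
      obtain ⟨i, hi⟩ := (hM.on e f).1 h1
      refine ⟨i, ?_⟩
      have h2 := hs i
      rw [hi, he] at h2
      exact Sym2.congr_right.1 h2
    · rintro ⟨i, rfl⟩
      exact ⟨hne i, M.ed f i, hs i⟩

end Pool.Agent.H57.OLP
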